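import Mathlib

set_option autoImplicit false

/-!
Definitions for the Ramsey property and infinite games.
-/

namespace Pool.Agent.Work.RamseyAD

/-- the list of the first `n` moves `z 0, ..., z (n - 1)` -/
def hist (z : ℕ → ℕ) (n : ℕ) : List ℕ := (List.range n).map z

/-- Two players alternately play natural numbers `z 0, z 1, z 2, ...`, player I makes the moves
`z (2 n)`, player II makes the moves `z (2 n + 1)`; player I wins if `z ∈ A`.  `Determined A` says
that one of the players has a winning strategy. -/
def Determined (A : Set (ℕ → ℕ)) : Prop :=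
  (∃ σ : List ℕ → ℕ, ∀ z : ℕ → ℕ, (∀ n, z (2 * n) = σ (hist z (2 * n))) → z ∈ A) ∨
  (∃ τ : List ℕ → ℕ, ∀ z : ℕ → ℕ, (∀ n, z (2 * n + 1) = τ (hist z (2 * n + 1))) → z ∉ A)

/-- Cantor space; a point `x` codes the set `{k | x k = true}` of natural numbers -/
abbrev C : Type := ℕ → Bool

/-- the set coded by `x` is infinite -/
def Inf (x : C) : Prop := ∀ n, ∃ k, n ≤ k ∧ x k = true

/-- inclusion of the coded sets -/
def Sub (x y : C) : Prop := ∀ k, x k = true → y k = true

/-- intersection of the coded sets -/
def meet (x f : C) : C := fun k => x k && f k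

/-- the usual coding of two points of Cantor space by one -/
def join (x y : C) : C := fun n => if n % 2 = 0 then x (n / 2) else y (n / 2)

/-- `D` is a tail set: it is invariant under finite changes -/
def Tail (D : Set C) : Prop :=
  ∀ x y : C, (∃ N, ∀ k, N ≤ k → x k = y k) → (x ∈ D ↔ y ∈ D)

/-- `D` is invariant under generic subsets: an infinite set `x` belongs to `D` iff comeager many
of its subsets `x ∩ f` do. -/
def GenInv (D : Set C) : Prop :=
  ∀ x, Inf x → (x ∈ D ↔ ∀ᶠ f in residual C, meet x f ∈ D)

/-- `D` is everywhere small: for each infinite set `x` comeager many of its subsets `x ∩ f` are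
not in `D`. -/
def GenSmall (D : Set C) : Prop := ∀ x, Inf x → ∀ᶠ f in residual C, meet x f ∉ D

/-- `A` is Ramsey: some infinite set `H` has all or none of its infinite subsets in `A`. -/
def Ramsey (A : Set C) : Prop :=
  ∃ H, Inf H ∧ ((∀ x, Inf x → Sub x H → x ∈ A) ∨ (∀ x, Inf x → Sub x H → x ∉ A))

end Pool.Agent.Work.RamseyAD
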