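import Mathlib
import Pool.Agent.Work.MP_f36782_h69.Defs

set_option autoImplicit false

namespace Pool.Agent.Work.RamseyAD

theorem hist_succ (z : ℕ → ℕ) (n : ℕ) : hist z (n + 1) = hist z n ++ [z n] := by
  simp [hist, List.range_succ]

theorem hist_length (z : ℕ → ℕ) (n : ℕ) : (hist z n).length = n := by simp [hist]

theorem hist_getD (z : ℕ → ℕ) {n i : ℕ} (h : i < n) : (hist z n).getD i 0 = z i := by
  rw [List.getD_eq_getElem _ _ (by rwa [hist_length])]
  simp [hist]

/-- a fast growing sequence -/
theorem fast (ρ : List ℕ → ℕ) : ∃ g : ℕ → ℕ, StrictMono g ∧ ∀ k : ℕ → ℕ, StrictMono k →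
    ∀ i, ρ (hist (fun j => g (k j)) i) < g (k i) := by
  classical
  let B : ℕ → ℕ := fun m =>
    ((Finset.range (m + 1)).powerset.sup fun S => ρ (S.sort (· ≤ ·))) + m + 1
  let g : ℕ → ℕ := fun n => Nat.rec (ρ [] + 1) (fun _ r => B r) n
  have hg0 : g 0 = ρ [] + 1 := rfl
  have hgs : ∀ n, g (n + 1) = B (g n) := fun n => rfl
  have hBlt : ∀ m, m < B m := fun m => by simp only [B]; omega
  have hg : StrictMono g := strictMono_nat_of_lt_succ fun n => by rw [hgs]; exact hBlt _
  refine ⟨g, hg, fun k hk i => ?_⟩
  rcases i with _ | i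
  · have : g 0 ≤ g (k 0) := hg.monotone (Nat.zero_le _)
    simp only [hist, List.range_zero, List.map_nil]
    omega
  · have hmono : StrictMono fun j => g (k j) := hg.comp hk
    set L : List ℕ := hist (fun j => g (k j)) (i + 1) with hL
    have hsorted : L.Pairwise (· ≤ ·) := by
      rw [hL, hist, List.pairwise_map]
      exact (List.pairwise_lt_range (n := i + 1)).imp fun h => (hmono h).le
    have hnd : L.Nodup := by
      rw [hL, hist]
      exact List.Nodup.map hmono.injective List.nodup_range
    have hsort : L.toFinset.sort (· ≤ ·) = L := (List.toFinset_sort (· ≤ ·) hnd).2 hsorted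
    have hsub : L.toFinset ∈ (Finset.range (g (k i) + 1)).powerset := by
      rw [Finset.mem_powerset]
      intro a ha
      rw [List.mem_toFinset, hL, hist, List.mem_map] at ha
      obtain ⟨j, hj, rfl⟩ := ha
      rw [List.mem_range] at hj
      have := hmono.monotone (Nat.lt_succ_iff.1 hj)
      simp only [Finset.mem_range]
      exact Nat.lt_succ_of_le this
    have h1 : ρ L ≤ (Finset.range (g (k i) + 1)).powerset.sup fun S => ρ (S.sort (· ≤ ·)) := by
      have := Finset.le_sup (f := fun S : Finset ℕ => ρ (S.sort (· ≤ ·))) hsub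
      rwa [hsort] at this
    have h2 : g (k i + 1) ≤ g (k (i + 1)) := hg.monotone (hk (Nat.lt_succ_self i))
    rw [hgs] at h2
    have h3 : ρ L < B (g (k i)) := by simp only [B]; omega
    exact lt_of_lt_of_le h3 h2

/-- the partial plays: the moves number `m j` are chosen such that the value becomes `t j`, all
other moves are given by `R` -/
noncomputable def run (R V : List ℕ → ℕ) (m : ℕ → ℕ) (t : ℕ → ℕ) : ℕ → List ℕ
  | 0 => []
  | n + 1 =>
    let l := run R V m t n
    l ++ [open Classical in if ∃ j, m j = n then t (Function.invFun m n) - V l else R l]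

theorem run_succ (R V : List ℕ → ℕ) (m t : ℕ → ℕ) (n : ℕ) :
    run R V m t (n + 1) = run R V m t n ++
      [open Classical in
        if ∃ j, m j = n then t (Function.invFun m n) - V (run R V m t n)
        else R (run R V m t n)] := rfl

theorem run_congr (R V : List ℕ → ℕ) {m : ℕ → ℕ} (hm : StrictMono m) {t t' : ℕ → ℕ} (j : ℕ)
    (h : ∀ i, i < j → t i = t' i) : ∀ n, n ≤ m j → run R V m t n = run R V m t' n := by
  intro n
  induction n with
  | zero => intro _; rfl
  | succ n ih =>
    intro hn
    rw [run_succ, run_succ, ih (by omega)]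
    congr 2
    by_cases hc : ∃ i, m i = n
    · rw [if_pos hc, if_pos hc]
      obtain ⟨i, hi⟩ := hc
      have h1 : Function.invFun m n = i := by
        rw [← hi]; exact Function.leftInverse_invFun hm.injective i
      have h2 : i < j := hm.lt_iff_lt.1 (by omega)
      rw [h1, h i h2]
    · rw [if_neg hc, if_neg hc]

/-- The plays in which the values at the moves `m j` are prescribed and all other moves are given
by a function of the history. -/
theorem play (R V : List ℕ → ℕ) (m : ℕ → ℕ) (hm : StrictMono m) : ∃ g : ℕ → ℕ, StrictMono g ∧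
    ∀ k : ℕ → ℕ, StrictMono k → ∃ z : ℕ → ℕ, (∀ n, (∀ j, m j ≠ n) → z n = R (hist z n)) ∧
      ∀ j, V (hist z (m j)) + z (m j) = g (k j) := by
  classical
  obtain ⟨g, hg, hfast⟩ := fast fun l => V (run R V m (fun i => l.getD i 0) (m l.length))
  refine ⟨g, hg, fun k hk => ?_⟩
  set t : ℕ → ℕ := fun j => g (k j) with ht
  let z : ℕ → ℕ := fun n =>
    if ∃ j, m j = n then t (Function.invFun m n) - V (run R V m t n) else R (run R V m t n)
  have hhist : ∀ n, hist z n = run R V m t n := by
    intro n
    induction n with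
    | zero => rfl
    | succ n ih =>
      rw [hist_succ, run_succ, ih]
  refine ⟨z, fun n hn => ?_, fun j => ?_⟩
  · rw [hhist]
    simp only [z]
    rw [if_neg]
    rintro ⟨j, hj⟩
    exact hn j hj
  · rw [hhist]
    have hz : z (m j) = t j - V (run R V m t (m j)) := by
      simp only [z]
      rw [if_pos ⟨j, rfl⟩, Function.leftInverse_invFun hm.injective j]
    rw [hz]
    have h1 := hfast k hk j
    rw [hist_length] at h1
    have h2 : run R V m (fun i => (hist (fun j => g (k j)) j).getD i 0) (m j) =
        run R V m t (m j) := by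
      refine run_congr R V hm j (fun i hi => ?_) _ le_rfl
      rw [hist_getD _ hi]
    rw [h2] at h1
    show _ = t j
    have h1' : V (run R V m t (m j)) < t j := h1
    omega

/-- the strictly increasing sequence with gaps given by `w` -/
def cum (w : ℕ → ℕ) (n : ℕ) : ℕ := (∑ i ∈ Finset.range n, (w i + 1)) + w n

theorem cum_strictMono (w : ℕ → ℕ) : StrictMono (cum w) :=
  strictMono_nat_of_lt_succ fun n => by
    unfold cum
    rw [Finset.sum_range_succ]
    omega

/-- Round `i` consists of the moves `z (2 i)` and `z (2 i + 1)`; the move of player II counts if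
`i ∈ S`, otherwise the move of player I counts. -/
noncomputable def ctr (S : Set ℕ) (i : ℕ) : ℕ := open Classical in if i ∈ S then 2 * i + 1 else 2 * i

theorem ctr_le (S : Set ℕ) (i : ℕ) : ctr S i ≤ 2 * i + 1 := by
  unfold ctr; split_ifs <;> omega

/-- the increasing sequence produced by a play -/
noncomputable def outcome (S : Set ℕ) (z : ℕ → ℕ) : ℕ → ℕ := cum fun i => z (ctr S i)

theorem outcome_strictMono (S : Set ℕ) (z : ℕ → ℕ) : StrictMono (outcome S z) := cum_strictMono _

theorem continuous_outcome (S : Set ℕ) : Continuous (outcome S) := by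
  refine continuous_pi fun n => ?_
  unfold outcome cum
  fun_prop

/-- the sum of the gaps up to now -/
noncomputable def val (S : Set ℕ) (l : List ℕ) : ℕ :=
  ∑ i ∈ Finset.range (l.length / 2), (l.getD (ctr S i) 0 + 1)

theorem val_hist (S : Set ℕ) (z : ℕ → ℕ) {n m : ℕ} (h : m / 2 = n) :
    val S (hist z m) = ∑ i ∈ Finset.range n, (z (ctr S i) + 1) := by
  unfold val
  rw [hist_length, h]
  refine Finset.sum_congr rfl fun i hi => ?_
  rw [Finset.mem_range] at hi
  rw [hist_getD]
  have := ctr_le S i
  omega

/-- The main step, for increasing sequences. -/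
theorem patterns (D : Set (ℕ → ℕ))
    (hdet : ∀ f : (ℕ → ℕ) → (ℕ → ℕ), Continuous f → (∀ z, StrictMono (f z)) →
      Determined (f ⁻¹' D))
    (a b : ℕ → ℕ) (ha : StrictMono a) (hb : StrictMono b) (hab : ∀ i j, a i ≠ b j)
    (h : ℕ → ℕ) (hh : StrictMono h)
    (hD : ∀ x : ℕ → ℕ, StrictMono x → h ∘ x ∘ b ∈ D → h ∘ x ∘ a ∈ D) :
    ∃ g : ℕ → ℕ, StrictMono g ∧
      ((∀ k : ℕ → ℕ, StrictMono k → h ∘ g ∘ k ∈ D) ∨
        (∀ k : ℕ → ℕ, StrictMono k → h ∘ g ∘ k ∉ D)) := by
  classical
  set S : Set ℕ := Set.range a with hS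
  have hcont : Continuous fun z : ℕ → ℕ => h ∘ outcome S z ∘ a := by
    refine continuous_pi fun n => ?_
    exact (continuous_of_discreteTopology (f := h)).comp
      ((continuous_apply (a n)).comp (continuous_outcome S))
  have hmono : ∀ z : ℕ → ℕ, StrictMono (h ∘ outcome S z ∘ a) := fun z =>
    hh.comp ((outcome_strictMono S z).comp ha)
  rcases hdet _ hcont hmono with ⟨σ, hσ⟩ | ⟨τ, hτ⟩
  · -- player I has a winning strategy
    obtain ⟨g, hg, hplay⟩ := play (fun l => if l.length % 2 = 0 then σ l else 0) (val S)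
      (fun j => 2 * a j + 1) (fun i j hij => by have := ha hij; dsimp only; omega)
    refine ⟨g, hg, Or.inl fun k hk => ?_⟩
    obtain ⟨z, hz1, hz2⟩ := hplay k hk
    have hz : ∀ n, z (2 * n) = σ (hist z (2 * n)) := by
      intro n
      rw [hz1 (2 * n) (fun j => by omega), hist_length, if_pos (by omega)]
    have hx : h ∘ outcome S z ∘ a ∈ D := hσ z hz
    have heq : h ∘ outcome S z ∘ a = h ∘ g ∘ k := by
      funext j
      simp only [Function.comp_apply]
      have h1 := hz2 j
      rw [val_hist S z (n := a j) (by omega)] at h1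
      rw [← h1]
      unfold outcome cum
      have h2 : ctr S (a j) = 2 * a j + 1 := by
        unfold ctr; rw [if_pos]; rw [hS]; exact ⟨j, rfl⟩
      dsimp only
      rw [h2]
    rwa [heq] at hx
  · -- player II has a winning strategy
    obtain ⟨g, hg, hplay⟩ := play (fun l => if l.length % 2 = 1 then τ l else 0) (val S)
      (fun j => 2 * b j) (fun i j hij => by have := hb hij; dsimp only; omega)
    refine ⟨g, hg, Or.inr fun k hk => ?_⟩
    obtain ⟨z, hz1, hz2⟩ := hplay k hk
    have hz : ∀ n, z (2 * n + 1) = τ (hist z (2 * n + 1)) := by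
      intro n
      rw [hz1 (2 * n + 1) (fun j => by omega), hist_length, if_pos (by omega)]
    have hx : h ∘ outcome S z ∘ a ∉ D := hτ z hz
    intro hcon
    apply hx
    apply hD _ (outcome_strictMono S z)
    have heq : h ∘ outcome S z ∘ b = h ∘ g ∘ k := by
      funext j
      simp only [Function.comp_apply]
      have h1 := hz2 j
      rw [val_hist S z (n := b j) (by omega)] at h1
      rw [← h1]
      unfold outcome cum
      have h2 : ctr S (b j) = 2 * b j := by
        unfold ctr; rw [if_neg]; rw [hS]; rintro ⟨i, hi⟩; exact hab i j hi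
      dsimp only
      rw [h2]
    rwa [heq]

end Pool.Agent.Work.RamseyAD
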