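import Mathlib
import Pool.Agent.Work.MP_f36782_h69.Defs

set_option autoImplicit false

namespace Pool.Agent.Work.RamseyAD

/-- `u` below `n`, and `x` from `n` on -/
def ovr (n : ℕ) (u x : C) : C := fun k => if k < n then u k else x k

/-- the empty set -/
def zero : C := fun _ => false

/-- the singleton of `j` -/
def single (j : ℕ) : C := fun k => decide (k = j)

/-- the code of a finite set -/
def ind (S : Finset ℕ) : C := fun k => decide (k ∈ S)

/-- the part of a set below `n` -/
def low (n : ℕ) (u : C) : Finset ℕ := (Finset.range n).filter fun k => u k = true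

theorem ind_low {n : ℕ} (u : C) {k : ℕ} (h : k < n) : ind (low n u) k = u k := by
  unfold ind low
  by_cases hu : u k = true
  · simp [h, hu]
  · simp [hu]

theorem Inf.sub_ovr {x : C} (h : Inf x) (n : ℕ) (u : C) : Inf (ovr n u x) := by
  intro m
  obtain ⟨k, hk, hx⟩ := h (max m n)
  refine ⟨k, by omega, ?_⟩
  unfold ovr
  rw [if_neg (by omega)]
  exact hx

theorem Sub.trans {x y z : C} (h : Sub x y) (h' : Sub y z) : Sub x z := fun k hk => h' k (h k hk)

theorem Sub.refl (x : C) : Sub x x := fun _ h => h

/-- Countably many dense requirements which are closed under almost inclusion can be met at the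
same time. -/
theorem diag (P : ℕ → C → Prop)
    (hdense : ∀ i H, Inf H → ∃ K, Inf K ∧ Sub K H ∧ P i K)
    (hclosed : ∀ i K K', P i K → Inf K' → (∃ n, ∀ k, n ≤ k → K' k = true → K k = true) → P i K')
    (H : C) (hH : Inf H) : ∃ K, Inf K ∧ Sub K H ∧ ∀ i, P i K := by
  classical
  choose! nxt hnI hnS hnP using hdense
  let Ks : ℕ → C := fun i => Nat.rec H (fun i K => nxt i K) i
  have hKs : ∀ i, Ks (i + 1) = nxt i (Ks i) := fun i => rfl
  have hI : ∀ i, Inf (Ks i) := by
    intro i
    induction i with
    | zero => exact hH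
    | succ i ih => rw [hKs]; exact hnI i _ ih
  have hanti : ∀ i j, i ≤ j → Sub (Ks j) (Ks i) := by
    intro i j hij
    induction j, hij using Nat.le_induction with
    | base => exact Sub.refl _
    | succ j _ ih =>
      intro k hk
      rw [hKs] at hk
      exact ih k (hnS j _ (hI j) k hk)
  obtain ⟨a, ha, haK⟩ : ∃ a : ℕ → ℕ, StrictMono a ∧ ∀ i, Ks i (a i) = true :=
    Filter.extraction_forall_of_frequently
      (P := fun i k => Ks i k = true) (fun i => Filter.frequently_atTop.2 fun n => by
        obtain ⟨k, hk, hx⟩ := hI i n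
        exact ⟨k, hk, hx⟩)
  let K : C := fun k : ℕ => @decide (∃ i : ℕ, a i = k) (Classical.propDecidable _)
  have hKa : ∀ k, K k = true ↔ ∃ i, a i = k := fun k => by simp [K]
  have hKI : Inf K := fun n => ⟨a n, ha.le_apply, (hKa _).2 ⟨n, rfl⟩⟩
  refine ⟨K, hKI, ?_, fun i => ?_⟩
  · intro k hk
    obtain ⟨j, rfl⟩ := (hKa k).1 hk
    exact hanti 0 j (Nat.zero_le _) _ (haK j)
  · refine hclosed i (Ks (i + 1)) K (by rw [hKs]; exact hnP i _ (hI i)) hKI ⟨a (i + 1), ?_⟩
    intro k hk hKk
    obtain ⟨j, rfl⟩ := (hKa k).1 hKk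
    exact hanti (i + 1) j (ha.le_iff_le.1 hk) _ (haK j)

/-- thinning out -/
theorem sparse (H : C) (hH : Inf H) (N : ℕ → ℕ) : ∃ K, Inf K ∧ Sub K H ∧
    ∀ k k', K k = true → K k' = true → k < k' → N k ≤ k' := by
  classical
  choose nx hnx using hH
  let a : ℕ → ℕ := fun i => Nat.rec (nx 0) (fun _ p => nx (max (N p) (p + 1))) i
  have ha : ∀ i, a (i + 1) = nx (max (N (a i)) (a i + 1)) := fun _ => rfl
  have hmono : StrictMono a := strictMono_nat_of_lt_succ fun i => by
    rw [ha]
    have := (hnx (max (N (a i)) (a i + 1))).1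
    omega
  have hH' : ∀ i, H (a i) = true := by
    intro i
    rcases i with _ | i
    · exact (hnx 0).2
    · rw [ha]; exact (hnx _).2
  let K : C := fun k : ℕ => @decide (∃ i : ℕ, a i = k) (Classical.propDecidable _)
  have hKa : ∀ k, K k = true ↔ ∃ i, a i = k := fun k => by simp [K]
  refine ⟨K, fun n => ⟨a n, hmono.le_apply, (hKa _).2 ⟨n, rfl⟩⟩, ?_, ?_⟩
  · intro k hk
    obtain ⟨j, rfl⟩ := (hKa k).1 hk
    exact hH' j
  · intro k k' hk hk' hlt
    obtain ⟨i, rfl⟩ := (hKa k).1 hk
    obtain ⟨j, rfl⟩ := (hKa k').1 hk'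
    have hij : i < j := hmono.lt_iff_lt.1 hlt
    have h1 : a (i + 1) ≤ a j := hmono.monotone hij
    have h2 := (hnx (max (N (a i)) (a i + 1))).1
    rw [← ha] at h2
    omega

/-- `X` accepts the condition `(n, u)` up to finitely many elements -/
def Acc (O : Set C) (n : ℕ) (u X : C) : Prop :=
  ∃ N, n ≤ N ∧ ∀ y, Inf y → Sub y X → ovr N (ovr n u zero) y ∈ O

/-- no infinite subset accepts -/
def Rej (O : Set C) (n : ℕ) (u X : C) : Prop := ∀ Y, Inf Y → Sub Y X → ¬ Acc O n u Y

theorem ovr_zero_congr {n : ℕ} {u v : C} (h : ∀ k, k < n → u k = v k) :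
    ovr n u zero = ovr n v zero := by
  funext k
  unfold ovr
  split_ifs with hk
  · exact h k hk
  · rfl

theorem Rej.congr {O : Set C} {n : ℕ} {u v X : C} (h : ∀ k, k < n → u k = v k)
    (hr : Rej O n u X) : Rej O n v X := by
  intro Y hY hYX hacc
  apply hr Y hY hYX
  obtain ⟨N, hN, hacc⟩ := hacc
  exact ⟨N, hN, by rw [ovr_zero_congr h]; exact hacc⟩

theorem Acc.almost {O : Set C} {n : ℕ} {u X X' : C}
    (h : ∃ M, ∀ k, M ≤ k → X' k = true → X k = true) (hacc : Acc O n u X) : Acc O n u X' := by
  obtain ⟨M, hM⟩ := h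
  obtain ⟨N, hN, hacc⟩ := hacc
  refine ⟨max N M, by omega, fun y hy hyX => ?_⟩
  have h1 := hacc (ovr (max N M) zero y) (hy.sub_ovr _ _) (by
    intro k hk
    unfold ovr at hk
    split_ifs at hk with hlt
    · simp [zero] at hk
    · exact hM k (by omega) (hyX k hk))
  have h2 : ovr N (ovr n u zero) (ovr (max N M) zero y) =
      ovr (max N M) (ovr n u zero) y := by
    funext k
    simp only [ovr, zero]
    split_ifs <;> first | rfl | (exfalso; omega)
  rwa [h2] at h1

/-- Open sets are completely Ramsey for infinite sets. -/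
theorem openRamsey (O : Set C) (hO : ∀ x ∈ O, ∃ n, ∀ y : C, (∀ k, k < n → y k = x k) → y ∈ O)
    (H : C) (hH : Inf H) : ∃ K, Inf K ∧ Sub K H ∧
      ((∀ x, Inf x → Sub x K → x ∈ O) ∨ (∀ x, Inf x → Sub x K → x ∉ O)) := by
  classical
  obtain ⟨e, he⟩ := exists_surjective_nat (ℕ × Finset ℕ)
  obtain ⟨H1, hH1I, hH1H, hH1⟩ := diag
    (fun i K => Acc O (e i).1 (ind (e i).2) K ∨ Rej O (e i).1 (ind (e i).2) K)
    (by
      intro i H hH
      by_cases h : ∃ Y, Inf Y ∧ Sub Y H ∧ Acc O (e i).1 (ind (e i).2) Y
      · obtain ⟨Y, hY, hYH, hacc⟩ := h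
        exact ⟨Y, hY, hYH, Or.inl hacc⟩
      · push Not at h
        exact ⟨H, hH, Sub.refl _, Or.inr h⟩)
    (by
      intro i K K' hK hK' hKK'
      rcases hK with hK | hK
      · exact Or.inl (hK.almost hKK')
      · right
        intro Y hY hYK' hacc
        obtain ⟨M, hM⟩ := hKK'
        refine hK (ovr M zero Y) (hY.sub_ovr _ _) ?_ (hacc.almost ⟨0, ?_⟩)
        · intro k hk
          unfold ovr at hk
          split_ifs at hk with hlt
          · simp [zero] at hk
          · exact hM k (by omega) (hYK' k hk)
        · intro k _ hk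
          unfold ovr at hk
          split_ifs at hk with hlt
          · simp [zero] at hk
          · exact hk)
    H hH
  have hdec : ∀ n u, Acc O n u H1 ∨ Rej O n u H1 := by
    intro n u
    obtain ⟨i, hi⟩ := he (n, low n u)
    rcases hH1 i with h | h
    · left
      rw [hi] at h
      obtain ⟨N, hN, h⟩ := h
      refine ⟨N, hN, ?_⟩
      rw [← ovr_zero_congr (u := ind (low n u)) (fun k hk => ind_low u hk)]
      exact h
    · right
      rw [hi] at h
      exact h.congr fun k hk => ind_low u hk
  by_cases h0 : Acc O 0 zero H1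
  · obtain ⟨N, -, hN⟩ := h0
    refine ⟨ovr N zero H1, hH1I.sub_ovr _ _, ?_, Or.inl fun x hx hxK => ?_⟩
    · intro k hk
      unfold ovr at hk
      split_ifs at hk with hlt
      · simp [zero] at hk
      · exact hH1H k hk
    · have hxK' : ∀ k, x k = true → N ≤ k ∧ H1 k = true := by
        intro k hk
        have := hxK k hk
        unfold ovr at this
        split_ifs at this with hlt
        · simp [zero] at this
        · exact ⟨by omega, this⟩
      have h1 := hN x hx (fun k hk => (hxK' k hk).2)
      have h2 : ovr N (ovr 0 zero zero) x = x := by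
        funext k
        simp only [ovr, zero]
        split_ifs with h1 h2
        · omega
        · by_contra hne
          have : x k = true := by
            cases hxk : x k
            · exact absurd hxk.symm hne
            · rfl
          have := (hxK' k this).1
          omega
        · rfl
      rwa [h2] at h1
  have rej0 : Rej O 0 zero H1 := (hdec 0 zero).resolve_left h0
  -- a rejected condition has only finitely many accepted one point extensions
  have hbd : ∀ n u, Rej O n u H1 → ∃ M, ∀ j, M ≤ j → H1 j = true →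
      Rej O (j + 1) (ovr n u (single j)) H1 := by
    intro n u hr
    by_contra hcon
    push Not at hcon
    let B : C := fun j => decide (H1 j = true ∧ n ≤ j ∧ Acc O (j + 1) (ovr n u (single j)) H1)
    have hB : ∀ j, B j = true ↔
        H1 j = true ∧ n ≤ j ∧ Acc O (j + 1) (ovr n u (single j)) H1 := fun j => by simp [B]
    have hBI : Inf B := by
      intro m
      obtain ⟨j, hj, hHj, hnr⟩ := hcon (max m n)
      exact ⟨j, by omega, (hB j).2 ⟨hHj, by omega, (hdec _ _).resolve_right hnr⟩⟩
    have hex : ∀ j, ∃ N, B j = true → (j + 1 ≤ N ∧ ∀ y, Inf y → Sub y H1 →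
        ovr N (ovr (j + 1) (ovr n u (single j)) zero) y ∈ O) := by
      intro j
      by_cases hj : B j = true
      · obtain ⟨N, hN⟩ := ((hB j).1 hj).2.2
        exact ⟨N, fun _ => hN⟩
      · exact ⟨0, fun h => absurd h hj⟩
    choose N hN using hex
    obtain ⟨Y, hY, hYB, hYN⟩ := sparse B hBI N
    refine hr Y hY (fun k hk => ((hB k).1 (hYB k hk)).1) ⟨n, le_rfl, fun y hy hyY => ?_⟩
    have hex2 : ∃ k, n ≤ k ∧ y k = true := hy n
    set j := Nat.find hex2 with hj
    have hjs := Nat.find_spec hex2
    rw [← hj] at hjs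
    have hmin : ∀ k, n ≤ k → k < j → y k = false := by
      intro k hk hkj
      have := Nat.find_min hex2 hkj
      simpa [hk] using this
    have h1 := (hN j (hYB j (hyY j hjs.2))).2 y hy
      (fun k hk => ((hB k).1 (hYB k (hyY k hk))).1)
    have h2 : ovr (N j) (ovr (j + 1) (ovr n u (single j)) zero) y =
        ovr n (ovr n u zero) y := by
      funext k
      simp only [ovr, zero, single]
      by_cases hkn : k < n
      · have : k < N j := by have := (hN j (hYB j (hyY j hjs.2))).1; omega
        rw [if_pos this, if_pos (by omega), if_pos hkn, if_pos hkn, if_pos hkn]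
      · rw [show (if k < n then if k < n then u k else false else y k) = y k from if_neg hkn]
        by_cases hkj : k < j
        · rw [hmin k (by omega) hkj]
          have : k < N j := by have := (hN j (hYB j (hyY j hjs.2))).1; omega
          rw [if_pos this, if_pos (by omega), if_neg hkn]
          simp; omega
        · by_cases hkj2 : k = j
          · have : k < N j := by have := (hN j (hYB j (hyY j hjs.2))).1; omega
            rw [if_pos this, if_pos (by omega), if_neg hkn, hkj2, hjs.2]
            simp
          · by_cases hkN : k < N j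
            · rw [if_pos hkN, if_neg (by omega)]
              cases hyk : y k
              · rfl
              · have := hYN j k (hyY j hjs.2) (hyY k hyk) (by omega)
                omega
            · rw [if_neg hkN]
    rwa [h2] at h1
  have hbd' : ∀ n (S : Finset ℕ), ∃ M, Rej O n (ind S) H1 → ∀ j, M ≤ j → H1 j = true →
      Rej O (j + 1) (ovr n (ind S) (single j)) H1 := by
    intro n S
    by_cases h : Rej O n (ind S) H1
    · obtain ⟨M, hM⟩ := hbd n _ h
      exact ⟨M, fun _ => hM⟩
    · exact ⟨0, fun h' => absurd h' h⟩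
  choose M hM using hbd'
  obtain ⟨K, hKI, hKH, hKN⟩ := sparse (ovr (M 0 ∅) zero H1) (hH1I.sub_ovr _ _)
    (fun k => (Finset.range (k + 1)).powerset.sup fun S => M (k + 1) S)
  have hKH' : ∀ k, K k = true → M 0 ∅ ≤ k ∧ H1 k = true := by
    intro k hk
    have := hKH k hk
    unfold ovr at this
    split_ifs at this with hlt
    · simp [zero] at this
    · exact ⟨by omega, this⟩
  refine ⟨K, hKI, fun k hk => hH1H k (hKH' k hk).2, Or.inr fun x hx hxK hxO => ?_⟩
  have claim : ∀ n, ∃ n', n' ≤ n ∧ (n' = 0 ∨ ∃ k', n' = k' + 1 ∧ K k' = true) ∧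
      (∀ k, n' ≤ k → k < n → x k = false) ∧ Rej O n' x H1 := by
    intro n
    induction n with
    | zero =>
      exact ⟨0, le_rfl, Or.inl rfl, fun k _ h => absurd h (by omega),
        rej0.congr fun k hk => absurd hk (by omega)⟩
    | succ n ih =>
      obtain ⟨n', hn', hcase, hemp, hrej⟩ := ih
      cases hxn : x n with
      | false =>
        refine ⟨n', by omega, hcase, fun k hk hkn => ?_, hrej⟩
        rcases Nat.lt_succ_iff_lt_or_eq.1 hkn with h | h
        · exact hemp k hk h
        · rw [h]; exact hxn
      | true =>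
        have hKn := hxK n hxn
        refine ⟨n + 1, le_rfl, Or.inr ⟨n, rfl, hKn⟩, fun k hk hkn => by omega, ?_⟩
        have h1 : Rej O n' (ind (low n' x)) H1 :=
          hrej.congr fun k hk => (ind_low x hk).symm
        have h2 : M n' (low n' x) ≤ n := by
          rcases hcase with h | ⟨k', hk', hKk'⟩
          · subst h
            have : low 0 x = ∅ := by simp [low]
            rw [this]
            exact (hKH' n hKn).1
          · subst hk'
            have h3 := hKN k' n hKk' hKn (by omega)
            refine le_trans ?_ h3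
            refine Finset.le_sup (f := fun S => M (k' + 1) S) ?_
            rw [Finset.mem_powerset]
            exact Finset.filter_subset _ _
        have h3 := hM n' (low n' x) h1 n h2 (hKH' n hKn).2
        refine h3.congr fun k hk => ?_
        simp only [ovr, single]
        by_cases hkn' : k < n'
        · rw [if_pos hkn', ind_low x hkn']
        · rw [if_neg hkn']
          rcases Nat.lt_succ_iff_lt_or_eq.1 hk with h | h
          · rw [hemp k (by omega) h]
            simp; omega
          · rw [h, hxn]; simp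
  obtain ⟨n, hn⟩ := hO x hxO
  obtain ⟨n', hn', -, hemp, hrej⟩ := claim n
  refine hrej x hx (fun k hk => (hKH' k (hxK k hk)).2) ⟨n, hn', fun y _ _ => hn _ fun k hk => ?_⟩
  simp only [ovr, zero]
  rw [if_pos hk]
  split_ifs with hkn'
  · rfl
  · exact (hemp k (by omega) hk).symm

end Pool.Agent.Work.RamseyAD
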