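import Mathlib
import Pool.Agent.Work.MP_f36782_h69.Games
import Pool.Agent.Work.MP_f36782_h69.OpenRamsey

set_option autoImplicit false

namespace Pool.Agent.Work.RamseyAD

open Filter Topology

theorem isOpen_iff_agree (U : Set C) :
    IsOpen U ↔ ∀ x ∈ U, ∃ n, ∀ y : C, (∀ k, k < n → y k = x k) → y ∈ U := by
  constructor
  · intro hU x hx
    obtain ⟨V, ⟨z, n, rfl⟩, hxV, hVU⟩ :=
      (PiNat.isTopologicalBasis_cylinders (fun _ => Bool)).exists_subset_of_mem_open hx hU
    refine ⟨n, fun y hy => hVU ?_⟩
    rw [PiNat.mem_cylinder_iff] at hxV ⊢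
    intro i hi
    rw [hy i hi, hxV i hi]
  · intro h
    rw [isOpen_iff_forall_mem_open]
    intro x hx
    obtain ⟨n, hn⟩ := h x hx
    exact ⟨PiNat.cylinder x n, fun y hy => hn y fun k hk => PiNat.mem_cylinder_iff.1 hy k hk,
      PiNat.isOpen_cylinder _ x n, PiNat.self_mem_cylinder x n⟩

theorem continuous_ovr (n : ℕ) (u : C) : Continuous (ovr n u) := by
  refine continuous_pi fun k => ?_
  unfold ovr
  split_ifs
  · exact continuous_const
  · exact continuous_apply k

theorem isOpenMap_ovr (n : ℕ) (u : C) : IsOpenMap (ovr n u) := by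
  intro U hU
  rw [isOpen_iff_agree] at hU ⊢
  rintro _ ⟨f, hf, rfl⟩
  obtain ⟨N, hN⟩ := hU f hf
  refine ⟨max n N, fun y hy => ⟨ovr n f y, hN _ fun k hk => ?_, ?_⟩⟩
  · unfold ovr
    split_ifs with h
    · rfl
    · rw [hy k (by omega)]
      unfold ovr
      rw [if_neg h]
  · funext k
    by_cases h : k < n
    · rw [hy k (by omega)]
      simp only [ovr]
      rw [if_pos h, if_pos h]
    · simp only [ovr]
      rw [if_neg h, if_neg h]

theorem tendsto_ovr (n : ℕ) (u : C) : Tendsto (ovr n u) (residual C) (residual C) :=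
  tendsto_residual_of_isOpenMap (continuous_ovr n u) (isOpenMap_ovr n u)

/-! ### The Banach-Mazur game -/

/-- the nonempty block of bits coded by a move -/
def blk (a : ℕ) : List Bool := ((Encodable.decode a : Option (List Bool)).getD []) ++ [true]

theorem exists_blk (s : List Bool) : ∃ a, blk a = s ++ [true] :=
  ⟨Encodable.encode s, by simp [blk]⟩

/-- the concatenation of the blocks -/
def cat (p : List ℕ) : List Bool := p.flatMap blk

theorem cat_append (p q : List ℕ) : cat (p ++ q) = cat p ++ cat q := by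
  simp [cat]

theorem cat_singleton (a : ℕ) : cat [a] = blk a := by simp [cat]

theorem length_cat (p : List ℕ) : p.length ≤ (cat p).length := by
  induction p with
  | nil => simp
  | cons a p ih =>
    have h : cat (a :: p) = blk a ++ cat p := by simp [cat]
    rw [h, List.length_append, List.length_cons]
    have : 1 ≤ (blk a).length := by simp [blk]
    omega

/-- the point produced by a play -/
def lim (z : ℕ → ℕ) : C := fun k => (cat (hist z (k + 1))).getD k false

/-- the cylinder of a finite sequence of bits -/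
def Cyl (s : List Bool) : Set C := {f | ∀ k, k < s.length → f k = s.getD k false}

theorem hist_prefix (z : ℕ → ℕ) {n m : ℕ} (h : n ≤ m) : ∃ r, hist z m = hist z n ++ r := by
  induction m, h using Nat.le_induction with
  | base => exact ⟨[], by simp⟩
  | succ m _ ih =>
    obtain ⟨r, hr⟩ := ih
    exact ⟨r ++ [z m], by rw [hist_succ, hr, List.append_assoc]⟩

theorem lim_mem (z : ℕ → ℕ) (n : ℕ) : lim z ∈ Cyl (cat (hist z n)) := by
  intro k hk
  unfold lim
  have hlen : k < (cat (hist z (k + 1))).length := by
    have := length_cat (hist z (k + 1))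
    rw [hist_length] at this
    omega
  rcases le_total n (k + 1) with h | h
  · obtain ⟨r, hr⟩ := hist_prefix z h
    rw [hr, cat_append, List.getD_append _ _ _ _ hk]
  · obtain ⟨r, hr⟩ := hist_prefix z h
    rw [hr, cat_append, List.getD_append _ _ _ _ hlen]

theorem continuous_lim : Continuous lim := by
  refine continuous_pi fun k => ?_
  have : (fun z : ℕ → ℕ => lim z k) =
      (fun w : Fin (k + 1) → ℕ => (cat (List.ofFn w)).getD k false) ∘
        (fun (z : ℕ → ℕ) (i : Fin (k + 1)) => z i) := by
    funext z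
    simp only [Function.comp_apply, lim]
    congr 2
    refine List.ext_getElem (by simp [hist]) fun i h1 h2 => ?_
    simp only [hist, List.getElem_map, List.getElem_range, List.getElem_ofFn]
  rw [this]
  exact continuous_of_discreteTopology.comp (by fun_prop)

theorem isOpen_Cyl (s : List Bool) : IsOpen (Cyl s) := by
  rw [isOpen_iff_agree]
  intro f hf
  exact ⟨s.length, fun y hy k hk => by rw [hy k hk, hf k hk]⟩

theorem isOpen_Cyl_compl (s : List Bool) : IsOpen (Cyl s)ᶜ := by
  rw [isOpen_iff_agree]
  intro f hf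
  refine ⟨s.length, fun y hy hyc => hf fun k hk => ?_⟩
  rw [← hy k hk, hyc k hk]

theorem exists_play (mv : List ℕ → ℕ) : ∃ z : ℕ → ℕ, ∀ n, z n = mv (hist z n) := by
  let L : ℕ → List ℕ := fun n => Nat.rec [] (fun _ l => l ++ [mv l]) n
  have hL : ∀ n, L (n + 1) = L n ++ [mv (L n)] := fun _ => rfl
  have hh : ∀ n, hist (fun n => mv (L n)) n = L n := by
    intro n
    induction n with
    | zero => rfl
    | succ n ih => rw [hist_succ, ih, hL]
  exact ⟨fun n => mv (L n), fun n => by rw [hh]⟩

theorem dense_step (R : List ℕ → ℕ) (p : List ℕ) :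
    ∀ᶠ f in residual C, f ∈ Cyl (cat p) → ∃ a, f ∈ Cyl (cat (p ++ [a] ++ [R (p ++ [a])])) := by
  have hset : {f : C | f ∈ Cyl (cat p) → ∃ a, f ∈ Cyl (cat (p ++ [a] ++ [R (p ++ [a])]))} =
      (Cyl (cat p))ᶜ ∪ ⋃ a, Cyl (cat (p ++ [a] ++ [R (p ++ [a])])) := by
    ext f
    simp only [Set.mem_ofPred_eq, Set.mem_union, Set.mem_compl_iff, Set.mem_iUnion]
    tauto
  show {f : C | f ∈ Cyl (cat p) → ∃ a, f ∈ Cyl (cat (p ++ [a] ++ [R (p ++ [a])]))} ∈ residual C
  rw [hset]
  refine residual_of_dense_open
    ((isOpen_Cyl_compl _).union (isOpen_iUnion fun a => isOpen_Cyl _)) ?_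
  rw [dense_iff_inter_open]
  rintro V hV ⟨f, hf⟩
  by_cases hfp : f ∈ Cyl (cat p)
  · obtain ⟨N, hN⟩ := (isOpen_iff_agree V).1 hV f hf
    obtain ⟨a, ha⟩ := exists_blk ((List.range N).map fun i => f ((cat p).length + i))
    set q := p ++ [a] ++ [R (p ++ [a])] with hq
    refine ⟨fun k => (cat q).getD k false, hN _ fun k hk => ?_, Or.inr ?_⟩
    · have h1 : cat q = cat p ++ (((List.range N).map fun i => f ((cat p).length + i)) ++
          ([true] ++ blk (R (p ++ [a])))) := by
        rw [hq, cat_append, cat_append, cat_singleton, cat_singleton, ha]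
        simp only [List.append_assoc]
      rw [h1]
      by_cases hkp : k < (cat p).length
      · rw [List.getD_append _ _ _ _ hkp, hfp k hkp]
      · rw [List.getD_append_right _ _ _ _ (by omega), List.getD_append _ _ _ _ (by
          rw [List.length_map, List.length_range]; omega)]
        rw [List.getD_eq_getElem _ _ (by rw [List.length_map, List.length_range]; omega)]
        rw [List.getElem_map, List.getElem_range]
        congr 1
        omega
    · rw [Set.mem_iUnion]
      exact ⟨a, fun k _ => rfl⟩
  · exact ⟨f, hf, Or.inl hfp⟩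

theorem gen_play (R : List ℕ → ℕ) (s : List ℕ) (ε : ℕ) (hε : (ε = 0 ∧ s = []) ∨ (ε = 1 ∧ s = [R []])) :
    ∀ᶠ f in residual C, f ∈ Cyl (cat s) →
      ∃ z : ℕ → ℕ, (∀ n, n % 2 ≠ ε → z n = R (hist z n)) ∧ lim z = f := by
  classical
  have h := eventually_countable_forall.2 fun p : List ℕ => dense_step R p
  filter_upwards [h] with f hf hfs
  choose! ch hch using hf
  obtain ⟨z, hz⟩ := exists_play fun l => if l.length % 2 = ε then ch l else R l
  have hz1 : ∀ n, n % 2 ≠ ε → z n = R (hist z n) := by
    intro n hn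
    have := hz n
    rw [if_neg (by rw [hist_length]; exact hn)] at this
    exact this
  have hz2 : ∀ n, n % 2 = ε → z n = ch (hist z n) := by
    intro n hn
    have := hz n
    rw [if_pos (by rw [hist_length]; exact hn)] at this
    exact this
  have hε2 : ε < 2 := by omega
  have hcyl : ∀ j, f ∈ Cyl (cat (hist z (2 * j + ε))) := by
    intro j
    induction j with
    | zero =>
      rcases hε with ⟨h0, h1⟩ | ⟨h0, h1⟩
      · subst h0
        rw [h1] at hfs
        simpa [hist] using hfs
      · subst h0
        have h2 : hist z (2 * 0 + 1) = [R []] := by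
          have := hz1 0 (by norm_num)
          have h3 : hist z 0 = [] := rfl
          rw [h3] at this
          rw [show 2 * 0 + 1 = 0 + 1 from rfl, hist_succ, this, h3]
          rfl
        rw [h2, ← h1]
        exact hfs
    | succ j ih =>
      have h1 := hch _ ih
      have h2 : hist z (2 * (j + 1) + ε) = hist z (2 * j + ε) ++ [ch (hist z (2 * j + ε))] ++
          [R (hist z (2 * j + ε) ++ [ch (hist z (2 * j + ε))])] := by
        have e1 : 2 * (j + 1) + ε = (2 * j + ε + 1) + 1 := by ring
        have e2 : hist z (2 * j + ε + 1) = hist z (2 * j + ε) ++ [ch (hist z (2 * j + ε))] := by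
          rw [hist_succ, hz2 (2 * j + ε) (by omega)]
        rw [e1, hist_succ, hz1 (2 * j + ε + 1) (by omega), e2]
      rw [h2]
      exact h1
  refine ⟨z, hz1, ?_⟩
  funext k
  have hlen : k < (cat (hist z (2 * (k + 1) + ε))).length := by
    have := length_cat (hist z (2 * (k + 1) + ε))
    rw [hist_length] at this
    omega
  rw [hcyl (k + 1) k hlen, lim_mem z (2 * (k + 1) + ε) k hlen]

/-- If the games with payoff in continuous preimages of `E` are determined, then `E` is comeager in
some cylinder or meager. -/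
theorem bm (E : Set C) (hdet : ∀ f : (ℕ → ℕ) → C, Continuous f → Determined (f ⁻¹' E)) :
    (∃ m w, ∀ᶠ f in residual C, ovr m w f ∈ E) ∨ ∀ᶠ f in residual C, f ∉ E := by
  rcases hdet lim continuous_lim with ⟨σ, hσ⟩ | ⟨τ, hτ⟩
  · left
    refine ⟨(cat [σ []]).length, fun k => (cat [σ []]).getD k false, ?_⟩
    have h := (tendsto_ovr (cat [σ []]).length (fun k => (cat [σ []]).getD k false)).eventually
      (gen_play σ [σ []] 1 (Or.inr ⟨rfl, rfl⟩))
    filter_upwards [h] with f hf
    obtain ⟨z, hz, hzf⟩ := hf (by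
      intro k hk
      unfold ovr
      rw [if_pos hk])
    rw [← hzf]
    exact hσ z fun n => hz (2 * n) (by omega)
  · right
    filter_upwards [gen_play τ [] 0 (Or.inl ⟨rfl, rfl⟩)] with f hf
    obtain ⟨z, hz, hzf⟩ := hf (by intro k hk; simp [cat] at hk)
    rw [← hzf]
    exact hτ z fun n => hz (2 * n + 1) (by omega)

/-! ### Generic subsets -/

/-- for comeager many `f`, the set which is `u` below `n` and `x ∩ f` from `n` on, is in `A` -/
def Gen (A : Set C) (n : ℕ) (u x : C) : Prop := ∀ᶠ f in residual C, ovr n u (meet x f) ∈ A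

theorem Gen.ext {A : Set C} {n m : ℕ} {u v x : C} (h : Gen A n u x) (hnm : n ≤ m)
    (hv : ∀ k, k < n → v k = u k) (hvx : ∀ k, n ≤ k → k < m → v k = true → x k = true) :
    Gen A m v x := by
  have h' := (tendsto_ovr m v).eventually h
  refine h'.mono fun f hf => ?_
  have : ovr n u (meet x (ovr m v f)) = ovr m v (meet x f) := by
    funext k
    simp only [ovr, meet]
    by_cases h1 : k < n
    · rw [if_pos h1, if_pos (by omega), hv k h1]
    · by_cases h2 : k < m
      · rw [if_neg h1, if_pos h2, if_pos h2]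
        cases hvk : v k
        · simp
        · simp [hvx k (by omega) h2 hvk]
      · rw [if_neg h1, if_neg h2, if_neg h2]
  rwa [this] at hf

theorem Gen.congr {A : Set C} {n : ℕ} {u v x y : C} (hu : ∀ k, k < n → u k = v k)
    (hx : ∀ k, n ≤ k → x k = y k) (h : Gen A n u x) : Gen A n v y := by
  refine Eventually.mono h fun f hf => ?_
  have : ovr n u (meet x f) = ovr n v (meet y f) := by
    funext k
    simp only [ovr, meet]
    by_cases h1 : k < n
    · rw [if_pos h1, if_pos h1, hu k h1]
    · rw [if_neg h1, if_neg h1, hx k (by omega)]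
  rwa [this] at hf

instance : (residual C).NeBot := by
  rw [neBot_iff]
  intro h
  have h1 : (∅ : Set C) ∈ residual C := by rw [h]; exact mem_bot
  have h2 := dense_of_mem_residual h1
  obtain ⟨x, hx⟩ := h2.nonempty
  exact hx

theorem Gen.not_both {A : Set C} {n : ℕ} {u x : C} (h : Gen A n u x) (h' : Gen Aᶜ n u x) :
    False := by
  obtain ⟨f, hf, hf'⟩ := (Eventually.and h h').exists
  exact hf' hf

theorem Gen.loc {A : Set C} (hdet : ∀ f : (ℕ → ℕ) → C, Continuous f → Determined (f ⁻¹' Aᶜ))
    {n : ℕ} {u x : C} (h : ¬ Gen A n u x) : ∃ m v, n ≤ m ∧ (∀ k, k < n → v k = u k) ∧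
      (∀ k, n ≤ k → k < m → v k = true → x k = true) ∧ Gen Aᶜ m v x := by
  have hcont : Continuous fun f : C => ovr n u (meet x f) := by
    refine (continuous_ovr n u).comp (continuous_pi fun k => ?_)
    unfold meet
    exact (continuous_of_discreteTopology (f := fun b : Bool => x k && b)).comp
      (continuous_apply k)
  rcases bm {f | ovr n u (meet x f) ∈ Aᶜ} (fun g hg => hdet _ (hcont.comp hg)) with
    ⟨m, w, hw⟩ | hw
  · refine ⟨max n m, ovr n u (meet x w), le_max_left _ _, fun k hk => ?_, fun k hk _ hv => ?_, ?_⟩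
    · unfold ovr
      rw [if_pos hk]
    · unfold ovr meet at hv
      rw [if_neg (by omega)] at hv
      simp only [Bool.and_eq_true] at hv
      exact hv.1
    · have h' := (tendsto_ovr (max n m) w).eventually hw
      refine h'.mono fun f hf => ?_
      have : ovr n u (meet x (ovr m w (ovr (max n m) w f))) =
          ovr (max n m) (ovr n u (meet x w)) (meet x f) := by
        funext k
        simp only [ovr, meet]
        by_cases h1 : k < n
        · rw [if_pos h1, if_pos (by omega), if_pos h1]
        · by_cases h2 : k < m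
          · rw [if_neg h1, if_pos h2, if_pos (by omega), if_neg h1]
          · rw [if_neg h1, if_neg h2, if_neg (by omega), if_neg (by omega)]
      have hf' : ovr n u (meet x (ovr m w (ovr (max n m) w f))) ∈ Aᶜ := hf
      rwa [this] at hf'
  · exfalso
    apply h
    refine Eventually.mono hw fun f hf => ?_
    by_contra hcon
    exact hf hcon

/-- the tail set attached to a condition -/
def T (A : Set C) (n : ℕ) (u : C) : Set C := {x | ∃ m, n ≤ m ∧ Gen A m (ovr n u zero) x}

theorem T_congr {A : Set C} {n : ℕ} {u v : C} (h : ∀ k, k < n → u k = v k) :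
    T A n u = T A n v := by
  unfold T
  rw [ovr_zero_congr h]

theorem T_tail (A : Set C) (n : ℕ) (u : C) : Tail (T A n u) := by
  have key : ∀ x y : C, (∃ N, ∀ k, N ≤ k → x k = y k) → x ∈ T A n u → y ∈ T A n u := by
    rintro x y ⟨N, hN⟩ ⟨m, hnm, hm⟩
    refine ⟨max m N, by omega, ?_⟩
    have h1 : Gen A (max m N) (ovr n u zero) x := by
      refine hm.ext (le_max_left _ _) (fun _ _ => rfl) fun k hk _ hv => ?_
      unfold ovr zero at hv
      rw [if_neg (by omega)] at hv
      simp at hv
    exact h1.congr (fun _ _ => rfl) fun k hk => hN k (by omega)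
  intro x y hxy
  refine ⟨key x y hxy, key y x ?_⟩
  obtain ⟨N, hN⟩ := hxy
  exact ⟨N, fun k hk => (hN k hk).symm⟩

theorem T_disj {A : Set C} {n : ℕ} {u x : C} (h : x ∈ T A n u) (h' : x ∈ T Aᶜ n u) : False := by
  obtain ⟨m, hnm, hm⟩ := h
  obtain ⟨m', hnm', hm'⟩ := h'
  have hz : ∀ k, n ≤ k → ovr n u zero k = true → False := by
    intro k hk hv
    unfold ovr zero at hv
    rw [if_neg (by omega)] at hv
    simp at hv
  have h1 : Gen A (max m m') (ovr n u zero) x :=
    hm.ext (le_max_left _ _) (fun _ _ => rfl) fun k hk _ hv => (hz k (by omega) hv).elim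
  have h2 : Gen Aᶜ (max m m') (ovr n u zero) x :=
    hm'.ext (le_max_right _ _) (fun _ _ => rfl) fun k hk _ hv => (hz k (by omega) hv).elim
  exact h1.not_both h2

end Pool.Agent.Work.RamseyAD
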