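import Mathlib
import Pool.Agent.Work.MP_f36782_h69.Generic

set_option autoImplicit false

namespace Pool.Agent.Work.RamseyAD

open Filter Topology

theorem ovr_lt {n k : ℕ} (u x : C) (h : k < n) : ovr n u x k = u k := by
  unfold ovr; rw [if_pos h]

theorem ovr_ge {n k : ℕ} (u x : C) (h : n ≤ k) : ovr n u x k = x k := by
  unfold ovr; rw [if_neg (by omega)]

theorem continuous_meet (x : C) : Continuous (meet x) := by
  refine continuous_pi fun k => ?_
  unfold meet
  exact (continuous_of_discreteTopology (f := fun b : Bool => x k && b)).comp (continuous_apply k)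

theorem meet_assoc (x g f : C) : meet x (meet g f) = meet (meet x g) f := by
  funext k
  simp [meet, Bool.and_assoc]

/-- If comeager many `z` satisfy `P`, then for comeager many `g` comeager many `f` satisfy
`P (g ∩ f)`. -/
theorem ku (P : C → Prop) (h : ∀ᶠ z in residual C, P z) :
    ∀ᶠ g in residual C, ∀ᶠ f in residual C, P (meet g f) := by
  have h' : {z | P z} ∈ residual C := h
  rw [mem_residual_iff] at h'
  obtain ⟨S, hSo, hSd, hSc, hSs⟩ := h'
  have key : ∀ t ∈ S, ∀ᶠ g in residual C, ∀ᶠ f in residual C, meet g f ∈ t := by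
    intro t ht
    have hto := (isOpen_iff_agree t).1 (hSo t ht)
    have htd := dense_iff_inter_open.1 (hSd t ht)
    have step : ∀ᶠ g in residual C, ∀ q : ℕ × Finset ℕ,
        ∃ f, (∀ k, k < q.1 → f k = ind q.2 k) ∧ meet g f ∈ t := by
      refine eventually_countable_forall.2 fun q => residual_of_dense_open ?_ ?_
      · rw [isOpen_iff_agree]
        rintro g ⟨f, hf, hgf⟩
        obtain ⟨M, hM⟩ := hto _ hgf
        refine ⟨M, fun g' hg' => ⟨f, hf, hM _ fun k hk => ?_⟩⟩
        unfold meet
        rw [hg' k hk]
      · rw [dense_iff_inter_open]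
        rintro V hV ⟨g0, hg0⟩
        obtain ⟨N0, hN0⟩ := (isOpen_iff_agree V).1 hV g0 hg0
        set N1 := max N0 q.1 with hN1
        have hW : IsOpen {z : C | ∀ k, k < N1 → z k = meet g0 (ind q.2) k} := by
          rw [isOpen_iff_agree]
          intro z hz
          exact ⟨N1, fun y hy k hk => by rw [hy k hk, hz k hk]⟩
        obtain ⟨z, hz, hzt⟩ := htd _ hW ⟨meet g0 (ind q.2), fun _ _ => rfl⟩
        refine ⟨ovr N1 g0 z, hN0 _ fun k hk => ovr_lt _ _ (by omega),
          ovr N1 (ind q.2) z, fun k hk => ovr_lt _ _ (by omega), ?_⟩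
        have : meet (ovr N1 g0 z) (ovr N1 (ind q.2) z) = z := by
          funext k
          by_cases hk : k < N1
          · have := hz k hk
            simp only [meet] at this ⊢
            rw [ovr_lt _ _ hk, ovr_lt _ _ hk, this]
          · simp only [meet]
            rw [ovr_ge _ _ (by omega), ovr_ge _ _ (by omega)]
            simp
        rw [this]
        exact hzt
    refine step.mono fun g hg => residual_of_dense_open ?_ ?_
    · exact (hSo t ht).preimage (continuous_meet g)
    · rw [dense_iff_inter_open]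
      rintro V hV ⟨f0, hf0⟩
      obtain ⟨N, hN⟩ := (isOpen_iff_agree V).1 hV f0 hf0
      obtain ⟨f, hf, hgf⟩ := hg (N, low N f0)
      exact ⟨f, hN _ fun k hk => by rw [hf k hk, ind_low f0 hk], hgf⟩
  have h1 := (eventually_countable_ball hSc).2 key
  refine h1.mono fun g hg => ?_
  have h2 := (eventually_countable_ball hSc).2 hg
  exact h2.mono fun f hf => hSs (Set.mem_sInter.2 hf)

theorem zero_one {D : Set C} (hD : Tail D)
    (hdet : ∀ f : (ℕ → ℕ) → C, Continuous f → Determined (f ⁻¹' D)) (x : C) :
    (∀ᶠ f in residual C, meet x f ∈ D) ∨ ∀ᶠ f in residual C, meet x f ∉ D := by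
  rcases bm {f | meet x f ∈ D} (fun g hg => hdet _ ((continuous_meet x).comp hg)) with
    ⟨m, w, h⟩ | h
  · left
    refine h.mono fun f hf => ?_
    refine (hD _ _ ⟨m, fun k hk => ?_⟩).1 hf
    unfold meet
    rw [ovr_ge _ _ hk]
  · right
    exact h

/-- The tail sets `T A n u` are invariant under passing to generic subsets. -/
theorem T_generic {A : Set C}
    (hdet : ∀ f : (ℕ → ℕ) → C, Continuous f → Determined (f ⁻¹' Aᶜ))
    (hdet' : ∀ m v, ∀ f : (ℕ → ℕ) → C, Continuous f → Determined (f ⁻¹' {x | Gen A m v x}))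
    (n : ℕ) (u x : C) : x ∈ T A n u ↔ ∀ᶠ f in residual C, meet x f ∈ T A n u := by
  have hz : ∀ k, n ≤ k → ovr n u zero k = true → False := by
    intro k hk hv
    unfold ovr zero at hv
    rw [if_neg (by omega)] at hv
    simp at hv
  constructor
  · rintro ⟨m, hnm, hm⟩
    refine (ku _ hm).mono fun g hg => ⟨m, hnm, ?_⟩
    refine Eventually.mono hg fun f hf => ?_
    rwa [meet_assoc] at hf
  · intro h
    -- one number for comeager many subsets
    have h1 : ∃ M, n ≤ M ∧ ∀ᶠ g in residual C, Gen A M (ovr n u zero) (meet x g) := by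
      by_contra hcon0
      have hcon : ∀ M, n ≤ M → ¬ ∀ᶠ g in residual C, Gen A M (ovr n u zero) (meet x g) :=
        fun M hM h => hcon0 ⟨M, hM, h⟩
      have h2 : ∀ᶠ g in residual C, ∀ m : ℕ, n ≤ m → ¬ Gen A m (ovr n u zero) (meet x g) := by
        refine eventually_countable_forall.2 fun m => ?_
        rcases bm {g | Gen A m (ovr n u zero) (meet x g)}
          (fun g hg => hdet' m (ovr n u zero) _ ((continuous_meet x).comp hg)) with ⟨M0, w, hw⟩ | hw
        · by_cases hnm : n ≤ m
          · exfalso
            apply hcon (max m M0) (by omega)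
            refine hw.mono fun g hg => ?_
            have hg1 : Gen A m (ovr n u zero) (meet x (ovr M0 w g)) := hg
            have hg2 : Gen A (max m M0) (ovr n u zero) (meet x (ovr M0 w g)) :=
              hg1.ext (le_max_left _ _) (fun _ _ => rfl)
                fun k hk _ hv => (hz k (by omega) hv).elim
            refine hg2.congr (fun _ _ => rfl) fun k hk => ?_
            unfold meet
            rw [ovr_ge _ _ (by omega)]
          · exact Eventually.of_forall fun g h => absurd h hnm
        · exact hw.mono fun g hg _ => hg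
      obtain ⟨g, ⟨m, hnm, hm⟩, hg⟩ := (h.and h2).exists
      exact hg m hnm hm
    obtain ⟨M, hnM, hM⟩ := h1
    refine ⟨M, hnM, ?_⟩
    by_contra hcon
    obtain ⟨m', v, hMm, hv1, hv2, hv3⟩ := Gen.loc hdet hcon
    have h3 : ∀ᶠ g in residual C, Gen Aᶜ m' v (meet x g) := by
      refine (ku _ hv3).mono fun g hg => ?_
      refine Eventually.mono hg fun f hf => ?_
      rwa [meet_assoc] at hf
    have h4 : ∀ᶠ g in residual C, Gen A m' v (meet x g) := by
      refine ((tendsto_ovr m' (fun _ => true)).eventually hM).mono fun g hg => ?_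
      have hg1 : Gen A m' v (meet x (ovr m' (fun _ => true) g)) :=
        hg.ext hMm hv1 fun k hk hk' hv => by
          unfold meet
          rw [ovr_lt _ _ hk', hv2 k hk hk' hv]
          rfl
      refine hg1.congr (fun _ _ => rfl) fun k hk => ?_
      unfold meet
      rw [ovr_ge _ _ hk]
    obtain ⟨g, hg3, hg4⟩ := (h3.and h4).exists
    exact hg4.not_both hg3

end Pool.Agent.Work.RamseyAD
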