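import Mathlib
import Pool.Agent.Work.MP_f36782_h69.Fubini

set_option autoImplicit false

namespace Pool.Agent.Work.RamseyAD

open Filter Topology

/-- the number of elements of `H` below `k` -/
def cnt (H : C) (k : ℕ) : ℕ := Nat.count (fun j => H j = true) k

/-- the copy of `x` inside `H`: the `j`-th element of `H` is in `emb H x` iff `j` is in `x` -/
def emb (H x : C) : C := fun k => H k && x (cnt H k)

/-- the enumeration of `H` -/
noncomputable def enum (H : C) (j : ℕ) : ℕ := Nat.nth (fun j => H j = true) j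

theorem continuous_emb (H : C) : Continuous (emb H) := by
  refine continuous_pi fun k => ?_
  unfold emb
  exact (continuous_of_discreteTopology (f := fun b : Bool => H k && b)).comp
    (continuous_apply _)

theorem infinite_of_Inf {H : C} (hH : Inf H) : {j | H j = true}.Infinite := by
  rw [Set.infinite_iff_exists_gt]
  intro n
  obtain ⟨k, hk, hx⟩ := hH (n + 1)
  exact ⟨k, hx, by omega⟩

theorem cnt_enum {H : C} (hH : Inf H) (j : ℕ) : cnt H (enum H j) = j :=
  Nat.count_nth_of_infinite (infinite_of_Inf hH) j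

theorem enum_cnt {H : C} {k : ℕ} (h : H k = true) : enum H (cnt H k) = k :=
  Nat.nth_count (p := fun j => H j = true) h

theorem enum_mem {H : C} (hH : Inf H) (j : ℕ) : H (enum H j) = true :=
  Nat.nth_mem_of_infinite (infinite_of_Inf hH) j

theorem enum_strictMono {H : C} (hH : Inf H) : StrictMono (enum H) :=
  Nat.nth_strictMono (infinite_of_Inf hH)

theorem cnt_mono (H : C) : Monotone (cnt H) := Nat.count_monotone _

theorem emb_tail {H : C} (hH : Inf H) {D : Set C} (hD : Tail D) : Tail (emb H ⁻¹' D) := by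
  rintro x y ⟨N, hN⟩
  refine hD _ _ ⟨enum H N, fun k hk => ?_⟩
  unfold emb
  have h1 : N ≤ cnt H k := by
    have := cnt_mono H hk
    rwa [cnt_enum hH] at this
  rw [hN _ h1]

theorem below {H : C} (hH : Inf H) {D : Set C} (hR : Ramsey (emb H ⁻¹' D)) :
    ∃ K, Inf K ∧ Sub K H ∧ ((∀ x, Inf x → Sub x K → x ∈ D) ∨ (∀ x, Inf x → Sub x K → x ∉ D)) := by
  obtain ⟨K, hK, hKD⟩ := hR
  have key : ∀ x, Inf x → Sub x (emb H K) → ∃ x', Inf x' ∧ Sub x' K ∧ emb H x' = x := by
    intro x hx hxK
    have hxK' : ∀ k, x k = true → H k = true ∧ K (cnt H k) = true := by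
      intro k hk
      have := hxK k hk
      simpa only [emb, Bool.and_eq_true] using this
    refine ⟨fun j => x (enum H j), ?_, ?_, ?_⟩
    · intro n
      obtain ⟨k, hk, hxk⟩ := hx (enum H n)
      refine ⟨cnt H k, ?_, ?_⟩
      · have := cnt_mono H hk
        rwa [cnt_enum hH] at this
      · show x (enum H (cnt H k)) = true
        rw [enum_cnt (hxK' k hxk).1]
        exact hxk
    · intro j hj
      have := (hxK' _ hj).2
      rwa [cnt_enum hH] at this
    · funext k
      show (H k && x (enum H (cnt H k))) = x k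
      cases hHk : H k
      · cases hxk : x k
        · simp
        · rw [(hxK' k hxk).1] at hHk
          exact absurd hHk (by simp)
      · rw [enum_cnt hHk]
        simp
  refine ⟨emb H K, ?_, ?_, ?_⟩
  · intro n
    obtain ⟨j, hj, hKj⟩ := hK n
    refine ⟨enum H j, hj.trans ((enum_strictMono hH).le_apply), ?_⟩
    show (H (enum H j) && K (cnt H (enum H j))) = true
    rw [cnt_enum hH, enum_mem hH, hKj]
    rfl
  · intro k hk
    simp only [emb, Bool.and_eq_true] at hk
    exact hk.1
  · rcases hKD with h | h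
    · left
      intro x hx hxK
      obtain ⟨x', hx', hxK', rfl⟩ := key x hx hxK
      exact h x' hx' hxK'
    · right
      intro x hx hxK
      obtain ⟨x', hx', hxK', rfl⟩ := key x hx hxK
      exact h x' hx' hxK'

theorem emb_Inf {H x : C} (hH : Inf H) (hx : Inf x) : Inf (emb H x) := by
  intro n
  obtain ⟨j, hj, hxj⟩ := hx n
  refine ⟨enum H j, hj.trans ((enum_strictMono hH).le_apply), ?_⟩
  show (H (enum H j) && x (cnt H (enum H j))) = true
  rw [cnt_enum hH, enum_mem hH, hxj]
  rfl

theorem emb_sub (H x : C) : Sub (emb H x) H := by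
  intro k hk
  simp only [emb, Bool.and_eq_true] at hk
  exact hk.1

theorem meet_emb (H x h : C) : meet (emb H x) h = emb H (meet x fun j => h (enum H j)) := by
  funext k
  simp only [meet, emb]
  cases hk : H k
  · simp
  · rw [enum_cnt hk]
    simp

theorem tendsto_enum {H : C} (hH : Inf H) :
    Tendsto (fun (h : C) (j : ℕ) => h (enum H j)) (residual C) (residual C) := by
  refine tendsto_residual_of_isOpenMap (continuous_pi fun j => continuous_apply _) ?_
  intro U hU
  rw [isOpen_iff_agree] at hU ⊢
  rintro _ ⟨h, hh, rfl⟩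
  obtain ⟨N, hN⟩ := hU h hh
  refine ⟨N, fun z hz => ⟨fun k => if H k = true then z (cnt H k) else h k, hN _ fun k hk => ?_, ?_⟩⟩
  · by_cases hHk : H k = true
    · have h1 : cnt H k ≤ k := by
        have := (enum_strictMono hH).le_apply (x := cnt H k)
        rwa [enum_cnt hHk] at this
      simp only [hHk, if_true]
      rw [hz _ (by omega)]
      show h (enum H (cnt H k)) = h k
      rw [enum_cnt hHk]
    · simp only [hHk]
      simp
  · funext j
    simp only [enum_mem hH, if_true, cnt_enum hH]

theorem emb_genInv {H : C} (hH : Inf H) {D : Set C} (hD : Tail D)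
    (hdet : ∀ f : (ℕ → ℕ) → C, Continuous f → Determined (f ⁻¹' (emb H ⁻¹' D)))
    (hinv : GenInv D) : GenInv (emb H ⁻¹' D) := by
  intro x hx
  have h0 := hinv (emb H x) (emb_Inf hH hx)
  have h1 : ∀ f : C, meet x f ∈ emb H ⁻¹' D ↔ emb H (meet x f) ∈ D := fun f => Iff.rfl
  have hzo := zero_one (emb_tail hH hD) hdet x
  constructor
  · intro hxD
    rcases hzo with h | h
    · exact h
    · exfalso
      have h2 := h0.1 hxD
      have h3 := (tendsto_enum hH).eventually h
      obtain ⟨f, hf2, hf3⟩ := (h2.and h3).exists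
      rw [meet_emb] at hf2
      exact hf3 hf2
  · intro h
    apply h0.2
    refine ((tendsto_enum hH).eventually h).mono fun f hf => ?_
    rw [meet_emb]
    exact hf

theorem emb_genSmall {H : C} (hH : Inf H) {D : Set C} (hD : Tail D)
    (hdet : ∀ f : (ℕ → ℕ) → C, Continuous f → Determined (f ⁻¹' (emb H ⁻¹' D)))
    (hsm : ∀ x, Inf x → Sub x H → ∀ᶠ f in residual C, meet x f ∉ D) :
    GenSmall (emb H ⁻¹' D) := by
  intro x hx
  have h0 := hsm (emb H x) (emb_Inf hH hx) (emb_sub H x)
  rcases zero_one (emb_tail hH hD) hdet x with h | h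
  · exfalso
    have h3 := (tendsto_enum hH).eventually h
    obtain ⟨f, hf2, hf3⟩ := (h0.and h3).exists
    rw [meet_emb] at hf2
    exact hf2 hf3
  · exact h

/-- `D` is constant on the infinite subsets of `K` -/
def Const (D : Set C) (K : C) : Prop :=
  (∀ x, Inf x → Sub x K → x ∈ D) ∨ (∀ x, Inf x → Sub x K → x ∉ D)

theorem Const.almost {D : Set C} (hD : Tail D) {K K' : C} (h : Const D K)
    (hKK : ∃ n, ∀ k, n ≤ k → K' k = true → K k = true) : Const D K' := by
  obtain ⟨n, hn⟩ := hKK
  have hsub : ∀ x, Sub x K' → Sub (ovr n zero x) K := by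
    intro x hx k hk
    unfold ovr at hk
    split_ifs at hk with hlt
    · simp [zero] at hk
    · exact hn k (by omega) (hx k hk)
  have htail : ∀ x, x ∈ D ↔ ovr n zero x ∈ D := fun x => hD _ _ ⟨n, fun k hk => by
    unfold ovr
    rw [if_neg (by omega)]⟩
  rcases h with h | h
  · left
    intro x hx hxK
    rw [htail]
    exact h _ (hx.sub_ovr _ _) (hsub x hxK)
  · right
    intro x hx hxK
    rw [htail]
    exact h _ (hx.sub_ovr _ _) (hsub x hxK)

theorem Const.sub {D : Set C} {K K' : C} (h : Const D K) (hKK : Sub K' K) : Const D K' := by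
  rcases h with h | h
  · exact Or.inl fun x hx hxK => h x hx (hxK.trans hKK)
  · exact Or.inr fun x hx hxK => h x hx (hxK.trans hKK)

/-- the closure conditions on a family of sets of reals -/
structure Closed (F : Set (Set C)) : Prop where
  compl : ∀ A ∈ F, Aᶜ ∈ F
  union : ∀ A : ℕ → Set C, (∀ n, A n ∈ F) → (⋃ n, A n) ∈ F
  preimage : ∀ A ∈ F, ∀ f : C → C, Continuous f → f ⁻¹' A ∈ F
  category : ∀ A ∈ F, {x | ∀ᶠ y in residual C, join x y ∈ A} ∈ F
  det : ∀ A ∈ F, ∀ f : (ℕ → ℕ) → C, Continuous f → Determined (f ⁻¹' A)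

theorem Closed.Gen_mem {F : Set (Set C)} (hF : Closed F) {A : Set C} (hA : A ∈ F) (m : ℕ)
    (v : C) : {x | Gen A m v x} ∈ F := by
  let Φ : C → C := fun z =>
    ovr m v (meet (fun k => z (2 * k)) (fun k => z (2 * k + 1)))
  have hΦ : Continuous Φ := by
    refine (continuous_ovr _ _).comp (continuous_pi fun k => ?_)
    unfold meet
    have h2 : Continuous fun q : Bool × Bool => q.1 && q.2 := continuous_of_discreteTopology
    have h4 : Continuous fun z : C => ((z (2 * k), z (2 * k + 1)) : Bool × Bool) :=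
      (continuous_apply (2 * k)).prodMk (continuous_apply (2 * k + 1))
    exact h2.comp h4
  have h3 := hF.category _ (hF.preimage A hA Φ hΦ)
  have h4 : {x | Gen A m v x} =
      {x | ∀ᶠ y in residual C, join x y ∈ Φ ⁻¹' A} := by
    ext x
    have h5 : ∀ y, Φ (join x y) = ovr m v (meet x y) := by
      intro y
      simp only [Φ]
      congr 1
      funext k
      have e1 : (2 * k) % 2 = 0 := by omega
      have e2 : (2 * k) / 2 = k := by omega
      have e3 : (2 * k + 1) % 2 = 1 := by omega
      have e4 : (2 * k + 1) / 2 = k := by omega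
      simp [meet, join, e1, e2, e3, e4]
    simp only [Set.mem_ofPred_eq, Set.mem_preimage, Gen, h5]
  rw [h4]
  exact h3

theorem Closed.T_mem {F : Set (Set C)} (hF : Closed F) {A : Set C} (hA : A ∈ F) (n : ℕ) (u : C) :
    T A n u ∈ F := by
  have h1 : T A n u = ⋃ j : ℕ, {x | Gen A (n + j) (ovr n u zero) x} := by
    ext x
    simp only [T, Set.mem_ofPred_eq, Set.mem_iUnion]
    constructor
    · rintro ⟨m, hnm, hm⟩
      exact ⟨m - n, by rwa [Nat.add_sub_cancel' hnm]⟩
    · rintro ⟨j, hj⟩
      exact ⟨n + j, by omega, hj⟩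
  rw [h1]
  exact hF.union _ fun j => hF.Gen_mem hA _ _

theorem Closed.T_genInv {F : Set (Set C)} (hF : Closed F) {A : Set C} (hA : A ∈ F) (n : ℕ)
    (u : C) : GenInv (T A n u) := fun x _ =>
  T_generic (hF.det _ (hF.compl _ hA)) (fun m v => hF.det _ (hF.Gen_mem hA m v)) n u x

/-- all infinite subsets of `H` are in the tail set of the condition -/
def PB (B : Set C) (H : C) (n : ℕ) (u : C) : Prop := ∀ x, Inf x → Sub x H → x ∈ T B n u

theorem PB_congr {B : Set C} {H : C} {n : ℕ} {u v : C} (h : ∀ k, k < n → u k = v k)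
    (hu : PB B H n u) : PB B H n v := by
  unfold PB at *
  rw [← T_congr h]
  exact hu

/-- the open set generated by `PB` -/
def OB (B : Set C) (H : C) : Set C := {x | ∃ n, PB B H n x}

theorem OB_open (B : Set C) (H : C) :
    ∀ x ∈ OB B H, ∃ n, ∀ y : C, (∀ k, k < n → y k = x k) → y ∈ OB B H := by
  rintro x ⟨n, hn⟩
  exact ⟨n, fun y hy => ⟨n, PB_congr (fun k hk => (hy k hk).symm) hn⟩⟩

theorem ovr_sub {m : ℕ} {u K : C} (hu : ∀ k, k < m → u k = true → K k = true) :
    Sub (ovr m u K) K := by
  intro k hk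
  unfold ovr at hk
  split_ifs at hk with h
  · exact hu k h hk
  · exact hk

/-- Both open sets cannot be everywhere below `K`. -/
theorem stage1 {B : Set C} {H K : C} (hK : Inf K) (hKH : Sub K H) {n : ℕ} (hn : PB B H n K)
    (hmin : ∀ n', n' < n → ¬ PB Bᶜ H n' K) (hit : ∀ y, Inf y → Sub y K → y ∈ OB Bᶜ H) :
    False := by
  obtain ⟨m, hnm, hm⟩ := hn K hK hKH
  set y : C := ovr m (ovr n K zero) K with hy
  have hy1 : ∀ k, k < n → y k = K k := by
    intro k hk
    rw [hy]
    unfold ovr
    rw [if_pos (by omega), if_pos hk]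
  have hy2 : ∀ k, k < m → y k = ovr n K zero k := by
    intro k hk
    rw [hy]
    unfold ovr
    rw [if_pos hk]
  have hy3 : ∀ k, m ≤ k → y k = K k := by
    intro k hk
    rw [hy]
    unfold ovr
    rw [if_neg (by omega)]
  have hyK : Sub y K := ovr_sub fun k _ hu => by
    unfold ovr at hu
    split_ifs at hu with h
    · exact hu
    · simp [zero] at hu
  obtain ⟨n', hn'⟩ := hit y (hK.sub_ovr _ _) hyK
  by_cases hle : n' ≤ n
  · have h1 : PB Bᶜ H n' K := PB_congr (fun k hk => hy1 k (by omega)) hn'
    have h2 : n' = n := by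
      by_contra hne
      exact hmin n' (by omega) h1
    subst h2
    exact T_disj (hn K hK hKH) (h1 K hK hKH)
  · push Not at hle
    obtain ⟨m', hnm', hm'⟩ := hn' K hK hKH
    have h1 : Gen B (max m m') (ovr n' y zero) K := by
      refine hm.ext (le_max_left _ _) (fun k hk => ?_) (fun k hk hk' hv => ?_)
      · by_cases h : k < n'
        · have : ovr n' y zero k = y k := by unfold ovr; rw [if_pos h]
          rw [this, hy2 k hk]
        · have : ovr n' y zero k = false := by unfold ovr zero; rw [if_neg h]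
          rw [this]
          unfold ovr zero
          rw [if_neg (by omega)]
      · unfold ovr at hv
        split_ifs at hv with h
        · exact hyK k hv
        · simp [zero] at hv
    have h2 : Gen Bᶜ (max m m') (ovr n' y zero) K := by
      refine hm'.ext (le_max_right _ _) (fun _ _ => rfl) (fun k hk hk' hv => ?_)
      unfold ovr at hv
      split_ifs at hv with h
      · omega
      · simp [zero] at hv
    exact h1.not_both h2

/-- If the open set of the complement is avoided, then `B` is homogeneous somewhere below. -/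
theorem stage2 {F : Set (Set C)} (hF : Closed F)
    (htail : ∀ D ∈ F, Tail D → GenSmall D → Ramsey D)
    {B : Set C} (hB : B ∈ F) {H K : C} (hK : Inf K) (hKH : Sub K H)
    (hconst : ∀ n u, PB Bᶜ H n u ∨ ∀ x, Inf x → Sub x H → x ∉ T Bᶜ n u)
    (hav : ∀ x, Inf x → Sub x K → x ∉ OB Bᶜ H) :
    ∃ L, Inf L ∧ ∀ x, Inf x → Sub x L → x ∈ B := by
  classical
  have hgen : ∀ x, Inf x → Sub x K → ∀ n u, (∀ k, k < n → u k = true → K k = true) →
      Gen B n u x := by
    intro x hx hxK n u hu
    by_contra hcon
    obtain ⟨m, v, hnm, hv1, hv2, hv3⟩ := Gen.loc (hF.det _ (hF.compl _ hB)) hcon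
    have hxT : x ∈ T Bᶜ m v := ⟨m, le_rfl, hv3.congr (fun k hk => by
      unfold ovr
      rw [if_pos hk]) (fun _ _ => rfl)⟩
    rcases hconst m v with h | h
    · have hvK : ∀ k, k < m → v k = true → K k = true := by
        intro k hk hvk
        by_cases hkn : k < n
        · rw [hv1 k hkn] at hvk
          exact hu k hkn hvk
        · exact hxK k (hv2 k (by omega) hk hvk)
      refine hav (ovr m v K) (hK.sub_ovr _ _) (ovr_sub hvK) ⟨m, PB_congr (fun k hk => ?_) h⟩
      unfold ovr
      rw [if_pos hk]
    · exact h x hx (hxK.trans hKH) hxT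
  -- the tail set
  obtain ⟨e, he⟩ := exists_surjective_nat (ℕ × Finset ℕ)
  let res : Finset ℕ → C := fun S => ind (S.filter fun k => K k = true)
  have hres : ∀ S k, res S k = true → K k = true := by
    intro S k hk
    simp only [res, ind, decide_eq_true_eq, Finset.mem_filter] at hk
    exact hk.2
  set D : Set C := {x | ∃ n S, ovr n (res S) (meet x K) ∉ B} with hD
  have hDF : D ∈ F := by
    have h1 : D = ⋃ i, (fun x => ovr (e i).1 (res (e i).2) (meet x K)) ⁻¹' Bᶜ := by
      ext x
      simp only [hD, Set.mem_ofPred_eq, Set.mem_iUnion, Set.mem_preimage, Set.mem_compl_iff]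
      constructor
      · rintro ⟨n, S, h⟩
        obtain ⟨i, hi⟩ := he (n, S)
        exact ⟨i, by rw [hi]; exact h⟩
      · rintro ⟨i, hi⟩
        exact ⟨_, _, hi⟩
    rw [h1]
    refine hF.union _ fun i => hF.preimage _ (hF.compl _ hB) _ ?_
    refine (continuous_ovr _ _).comp (continuous_pi fun k => ?_)
    unfold meet
    exact (continuous_of_discreteTopology (f := fun b : Bool => b && K k)).comp
      (continuous_apply k)
  have hDT : Tail D := by
    have key : ∀ x y : C, (∃ N, ∀ k, N ≤ k → x k = y k) → x ∈ D → y ∈ D := by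
      rintro x y ⟨N, hN⟩ ⟨n, S, h⟩
      refine ⟨max n N, low (max n N) (ovr n (res S) (meet x K)), ?_⟩
      have h1 : ovr (max n N) (res (low (max n N) (ovr n (res S) (meet x K)))) (meet y K) =
          ovr n (res S) (meet x K) := by
        funext k
        by_cases hk : k < max n N
        · have h2 : ovr n (res S) (meet x K) k = true → K k = true := by
            intro h3
            unfold ovr at h3
            split_ifs at h3 with h4
            · exact hres S k h3
            · simp only [meet, Bool.and_eq_true] at h3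
              exact h3.2
          have h5 : ovr (max n N) (res (low (max n N) (ovr n (res S) (meet x K)))) (meet y K) k =
              res (low (max n N) (ovr n (res S) (meet x K))) k := ovr_lt _ _ hk
          rw [h5]
          simp only [res, ind]
          rw [Bool.eq_iff_iff]
          simp only [decide_eq_true_eq, Finset.mem_filter, low, Finset.mem_range]
          constructor
          · rintro ⟨⟨_, h6⟩, _⟩
            exact h6
          · intro h6
            exact ⟨⟨hk, h6⟩, h2 h6⟩
        · have e1 : ovr (max n N) (res (low (max n N) (ovr n (res S) (meet x K)))) (meet y K) k =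
              meet y K k := ovr_ge _ _ (by omega)
          have e2 : ovr n (res S) (meet x K) k = meet x K k := by
            unfold ovr
            rw [if_neg (by omega)]
          rw [e1, e2]
          unfold meet
          rw [hN k (by omega)]
      rw [h1]
      exact h
    intro x y hxy
    refine ⟨key x y hxy, key y x ?_⟩
    obtain ⟨N, hN⟩ := hxy
    exact ⟨N, fun k hk => (hN k hk).symm⟩
  have hmeet : ∀ z, Sub z K → meet z K = z := by
    intro z hz
    funext k
    unfold meet
    cases hzk : z k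
    · simp
    · rw [hz k hzk]; simp
  have hallq : ∀ x, Inf x → Sub x K →
      ∀ᶠ f in residual C, ∀ q : ℕ × Finset ℕ, ovr q.1 (res q.2) (meet x f) ∈ B := fun x hx hxK =>
    eventually_countable_forall.2 fun q => hgen x hx hxK q.1 (res q.2) fun k _ hk => hres _ k hk
  have hmeetsub : ∀ x f : C, Sub (meet x f) x := by
    intro x f k hk
    simp only [meet, Bool.and_eq_true] at hk
    exact hk.1
  have hDsmall : ∀ x, Inf x → Sub x K → ∀ᶠ f in residual C, meet x f ∉ D := by
    intro x hx hxK
    refine (hallq x hx hxK).mono fun f hf hfD => ?_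
    obtain ⟨n, S, h3⟩ := hfD
    apply h3
    rw [hmeet _ ((hmeetsub x f).trans hxK)]
    exact hf (n, S)
  have hpreF : emb K ⁻¹' D ∈ F := hF.preimage D hDF _ (continuous_emb K)
  obtain ⟨L, hL, hLK, hLD⟩ := below hK
    (htail _ hpreF (emb_tail hK hDT) (emb_genSmall hK hDT (hF.det _ hpreF) hDsmall))
  refine ⟨L, hL, fun x hx hxL => ?_⟩
  rcases hLD with h | h
  · exfalso
    have h2 : ∀ᶠ f in residual C, ∀ n : ℕ, ∃ k, n ≤ k ∧ meet L f k = true := by
      refine eventually_countable_forall.2 fun n => ?_
      have ho : IsOpen {f : C | ∃ k, n ≤ k ∧ meet L f k = true} := by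
        rw [isOpen_iff_agree]
        rintro f ⟨k, hk, hf⟩
        refine ⟨k + 1, fun y hy => ⟨k, hk, ?_⟩⟩
        unfold meet at hf ⊢
        rwa [hy k (by omega)]
      refine residual_of_dense_open ho ?_
      rw [dense_iff_inter_open]
      rintro V hV ⟨f, hf⟩
      obtain ⟨N, hN⟩ := (isOpen_iff_agree V).1 hV f hf
      obtain ⟨k, hk, hLk⟩ := hL (max n N)
      refine ⟨ovr N f (fun _ => true), hN _ fun j hj => ?_, k, by omega, ?_⟩
      · unfold ovr
        rw [if_pos hj]
      · unfold meet ovr
        rw [if_neg (by omega), hLk]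
        rfl
    obtain ⟨f, hf1, hf2⟩ := ((hDsmall L hL hLK).and h2).exists
    exact hf1 (h (meet L f) hf2 (hmeetsub L f))
  · by_contra hcon
    refine h x hx hxL ⟨0, ∅, ?_⟩
    rw [hmeet _ (hxL.trans hLK)]
    have : ovr 0 (res ∅) x = x := by
      funext k
      unfold ovr
      rw [if_neg (by omega)]
    rw [this]
    exact hcon

/-- In a closed, determined family all sets are Ramsey if all tail sets are. -/
theorem tail_reduction {F : Set (Set C)} (hF : Closed F)
    (htail : ∀ D ∈ F, Tail D → (GenInv D ∨ GenSmall D) → Ramsey D)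
    {A : Set C} (hA : A ∈ F) : Ramsey A := by
  classical
  obtain ⟨e, he⟩ := exists_surjective_nat (ℕ × Finset ℕ)
  have hdense : ∀ D ∈ F, Tail D → GenInv D → ∀ H, Inf H → ∃ K, Inf K ∧ Sub K H ∧ Const D K := by
    intro D hD hDT hDG H hH
    have hpre : emb H ⁻¹' D ∈ F := hF.preimage D hD _ (continuous_emb H)
    exact below hH (htail _ hpre (emb_tail hH hDT)
      (Or.inl (emb_genInv hH hDT (hF.det _ hpre) hDG)))
  have htail2 : ∀ D ∈ F, Tail D → GenSmall D → Ramsey D := fun D hD hT hS =>
    htail D hD hT (Or.inr hS)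
  obtain ⟨H, hH, -, hHc⟩ := diag
    (fun i K => Const (T A (e i).1 (ind (e i).2)) K ∧ Const (T Aᶜ (e i).1 (ind (e i).2)) K)
    (by
      intro i H hH
      obtain ⟨K1, hK1, hK1H, hc1⟩ := hdense _ (hF.T_mem hA (e i).1 (ind (e i).2)) (T_tail _ _ _)
        (hF.T_genInv hA _ _) H hH
      obtain ⟨K2, hK2, hK2K, hc2⟩ := hdense _ (hF.T_mem (hF.compl _ hA) (e i).1 (ind (e i).2))
        (T_tail _ _ _) (hF.T_genInv (hF.compl _ hA) _ _) K1 hK1
      exact ⟨K2, hK2, hK2K.trans hK1H, hc1.sub hK2K, hc2⟩)
    (by
      rintro i K K' ⟨h1, h2⟩ - hKK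
      exact ⟨h1.almost (T_tail _ _ _) hKK, h2.almost (T_tail _ _ _) hKK⟩)
    (fun _ => true) (fun n => ⟨n, le_rfl, rfl⟩)
  have hconst : ∀ B, B = A ∨ B = Aᶜ → ∀ n u, PB B H n u ∨ ∀ x, Inf x → Sub x H → x ∉ T B n u := by
    intro B hB n u
    obtain ⟨i, hi⟩ := he (n, low n u)
    have h1 : Const (T B n u) H := by
      rw [← T_congr (A := B) (u := ind (low n u)) (v := u) fun k hk => ind_low u hk]
      have := hHc i
      rw [hi] at this
      rcases hB with rfl | rfl
      · exact this.1
      · exact this.2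
    exact h1
  obtain ⟨K0, hK0, hK0H, hO0⟩ := openRamsey (OB Aᶜ H) (OB_open _ _) H hH
  rcases hO0 with hit0 | hav0
  · obtain ⟨K1, hK1, hK1K, hO1⟩ := openRamsey (OB A H) (OB_open _ _) K0 hK0
    rcases hO1 with hit1 | hav1
    · exfalso
      have hex : ∃ n, PB A H n K1 ∨ PB Aᶜ H n K1 := by
        obtain ⟨n, hn⟩ := hit1 K1 hK1 (Sub.refl _)
        exact ⟨n, Or.inl hn⟩
      have hmin := fun n' (h : n' < Nat.find hex) => Nat.find_min hex h
      have hK1H : Sub K1 H := hK1K.trans hK0H
      rcases Nat.find_spec hex with hs | hs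
      · exact stage1 (B := A) hK1 hK1H hs (fun n' hn' hc => hmin n' hn' (Or.inr hc))
          (fun y hy hyK => hit0 y hy (hyK.trans hK1K))
      · refine stage1 (B := Aᶜ) hK1 hK1H hs (fun n' hn' hc => hmin n' hn' (Or.inl ?_))
          (fun y hy hyK => ?_)
        · rwa [compl_compl] at hc
        · rw [compl_compl]
          exact hit1 y hy hyK
    · obtain ⟨L, hL, hLA⟩ := stage2 hF htail2 (B := Aᶜ) (hF.compl _ hA) (H := H) (K := K1) hK1
        (hK1K.trans hK0H)
        (by rw [compl_compl]; exact hconst A (Or.inl rfl)) (by rw [compl_compl]; exact hav1)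
      exact ⟨L, hL, Or.inr hLA⟩
  · obtain ⟨L, hL, hLA⟩ := stage2 hF htail2 (B := A) hA (H := H) (K := K0) hK0 hK0H
      (hconst Aᶜ (Or.inr rfl)) hav0
    exact ⟨L, hL, Or.inl hLA⟩

end Pool.Agent.Work.RamseyAD
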